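import Mathlib

/-!
# Division sudokus with several partitions: labelled form, products, fields
-/

set_option autoImplicit false

namespace Pool.Agent.H928.DS

/-- Labelled form: a latin square `L` on `X` with `k` partitions (fibres of `f i`). -/
def Lab (k : ℕ) (M X : Type) : Prop :=
  ∃ (L : X → X → X) (f : Fin k → X → M),
    (∀ x, Function.Bijective (L x)) ∧ (∀ y, Function.Bijective fun x => L x y) ∧
    (∀ i a b s, ∃ x y, f i x = a ∧ f i y = b ∧ L x y = s) ∧
    (∀ i a b y, ∃ x, f i x = a ∧ f i (L x y) = b) ∧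
    (∀ i a b x, ∃ y, f i y = a ∧ f i (L x y) = b) ∧
    ∀ i j, i ≠ j → ∀ a b, ∃! x, f i x = a ∧ f j x = b

theorem Lab.prod {k : ℕ} {M X M' X' : Type} (h : Lab k M X) (h' : Lab k M' X') :
    Lab k (M × M') (X × X') := by
  obtain ⟨L, f, h1, h2, h3, h4, h5, h6⟩ := h
  obtain ⟨L', f', h1', h2', h3', h4', h5', h6'⟩ := h'
  refine ⟨fun p q => (L p.1 q.1, L' p.2 q.2), fun i p => (f i p.1, f' i p.2), ?_, ?_, ?_, ?_,
    ?_, ?_⟩
  · rintro ⟨x, x'⟩
    exact Function.Bijective.prodMap (h1 x) (h1' x')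
  · rintro ⟨y, y'⟩
    exact Function.Bijective.prodMap (h2 y) (h2' y')
  · rintro i ⟨a, a'⟩ ⟨b, b'⟩ ⟨s, s'⟩
    obtain ⟨x, y, e1, e2, e3⟩ := h3 i a b s
    obtain ⟨x', y', e1', e2', e3'⟩ := h3' i a' b' s'
    exact ⟨(x, x'), (y, y'), Prod.ext e1 e1', Prod.ext e2 e2', Prod.ext e3 e3'⟩
  · rintro i ⟨a, a'⟩ ⟨b, b'⟩ ⟨y, y'⟩
    obtain ⟨x, e1, e2⟩ := h4 i a b y
    obtain ⟨x', e1', e2'⟩ := h4' i a' b' y'
    exact ⟨(x, x'), Prod.ext e1 e1', Prod.ext e2 e2'⟩
  · rintro i ⟨a, a'⟩ ⟨b, b'⟩ ⟨x, x'⟩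
    obtain ⟨y, e1, e2⟩ := h5 i a b x
    obtain ⟨y', e1', e2'⟩ := h5' i a' b' x'
    exact ⟨(y, y'), Prod.ext e1 e1', Prod.ext e2 e2'⟩
  · rintro i j hij ⟨a, a'⟩ ⟨b, b'⟩
    obtain ⟨x, ⟨e1, e2⟩, e3⟩ := h6 i j hij a b
    obtain ⟨x', ⟨e1', e2'⟩, e3'⟩ := h6' i j hij a' b'
    refine ⟨(x, x'), ⟨Prod.ext e1 e1', Prod.ext e2 e2'⟩, ?_⟩
    rintro ⟨z, z'⟩ ⟨g1, g2⟩
    refine Prod.ext ?_ ?_
    · exact e3 z ⟨congrArg Prod.fst g1, congrArg Prod.fst g2⟩
    · exact e3' z' ⟨congrArg Prod.snd g1, congrArg Prod.snd g2⟩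

theorem Lab.equiv {k : ℕ} {M X M' X' : Type} (h : Lab k M X) (e : M ≃ M') (g : X ≃ X') :
    Lab k M' X' := by
  obtain ⟨L, f, h1, h2, h3, h4, h5, h6⟩ := h
  refine ⟨fun x y => g (L (g.symm x) (g.symm y)), fun i x => e (f i (g.symm x)), ?_, ?_, ?_, ?_,
    ?_, ?_⟩
  · intro x
    exact g.bijective.comp ((h1 _).comp g.symm.bijective)
  · intro y
    exact g.bijective.comp ((h2 (g.symm y)).comp g.symm.bijective)
  · intro i a b s
    obtain ⟨x, y, e1, e2, e3⟩ := h3 i (e.symm a) (e.symm b) (g.symm s)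
    exact ⟨g x, g y, by simp [e1], by simp [e2], by simp [e3]⟩
  · intro i a b y
    obtain ⟨x, e1, e2⟩ := h4 i (e.symm a) (e.symm b) (g.symm y)
    exact ⟨g x, by simp [e1], by simp [e2]⟩
  · intro i a b x
    obtain ⟨y, e1, e2⟩ := h5 i (e.symm a) (e.symm b) (g.symm x)
    exact ⟨g y, by simp [e1], by simp [e2]⟩
  · intro i j hij a b
    obtain ⟨x, ⟨e1, e2⟩, e3⟩ := h6 i j hij (e.symm a) (e.symm b)
    refine ⟨g x, ⟨by simp [e1], by simp [e2]⟩, ?_⟩
    rintro z ⟨g1, g2⟩
    have := e3 (g.symm z) ⟨by rw [Equiv.eq_symm_apply]; exact g1,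
      by rw [Equiv.eq_symm_apply]; exact g2⟩
    rw [← this, Equiv.apply_symm_apply]

theorem Lab.unit (k : ℕ) : Lab k Unit Unit := by
  refine ⟨fun _ _ => (), fun _ _ => (), ?_, ?_, ?_, ?_, ?_, ?_⟩
  · intro x
    exact ⟨fun _ _ _ => rfl, fun _ => ⟨(), rfl⟩⟩
  · intro x
    exact ⟨fun _ _ _ => rfl, fun _ => ⟨(), rfl⟩⟩
  · intro i a b s
    exact ⟨(), (), rfl, rfl, rfl⟩
  · intro i a b y
    exact ⟨(), rfl, rfl⟩
  · intro i a b y
    exact ⟨(), rfl, rfl⟩
  · intro i j _ a b
    exact ⟨(), ⟨rfl, rfl⟩, fun _ _ => rfl⟩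

section field

variable {K : Type} [Field K]

theorem lin2 (p q r t e1 e2 : K) (h : p * t - q * r ≠ 0) :
    ∃ u v, p * u + q * v = e1 ∧ r * u + t * v = e2 := by
  refine ⟨(t * e1 - q * e2) / (p * t - q * r), (p * e2 - r * e1) / (p * t - q * r), ?_, ?_⟩
  · rw [mul_div_assoc', mul_div_assoc', ← add_div, div_eq_iff h]
    ring
  · rw [mul_div_assoc', mul_div_assoc', ← add_div, div_eq_iff h]
    ring

theorem lin1 (p e : K) (h : p ≠ 0) : ∃ u, p * u = e := ⟨e / p, by field_simp⟩

theorem exists_c (K : Type) [Field K] [Finite K] : ∃ c : K, ∀ x : K, x ^ 2 + x + c ≠ 0 := by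
  have h1 : ¬ Function.Injective (fun x : K => x ^ 2 + x) := by
    intro h
    have h2 : (0 : K) = -1 := h (by simp)
    have h3 : (1 : K) = 0 := by linear_combination h2
    exact one_ne_zero h3
  have h2 : ¬ Function.Surjective (fun x : K => x ^ 2 + x) := by
    intro h
    exact h1 (Finite.injective_iff_surjective.2 h)
  obtain ⟨c, hc⟩ := not_forall.1 h2
  refine ⟨-c, fun x hx => hc ⟨x, ?_⟩⟩
  show x ^ 2 + x = c
  linear_combination hx

theorem D_ne {c : K} (hc : ∀ x : K, x ^ 2 + x + c ≠ 0) (σ : K) : c * σ ^ 2 - σ + 1 ≠ 0 := by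
  intro h
  have hσ : σ ≠ 0 := by
    rintro rfl
    apply one_ne_zero (α := K)
    linear_combination h
  apply hc (-σ⁻¹)
  have h2 : σ * σ⁻¹ = 1 := mul_inv_cancel₀ hσ
  linear_combination (σ⁻¹ ^ 2) * h - (c * (σ * σ⁻¹ + 1) - σ⁻¹) * h2

/-- the label of a point for the direction `d` -/
def lab : Option K → K × K → K
  | some σ, x => x.2 - σ * x.1
  | none, x => x.1

/-- the latin square -/
def sq (c : K) (x y : K × K) : K × K :=
  (x.1 + c * x.2 - c * y.2, x.2 - x.1 + x.2 + y.1 - y.2)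

theorem field_lab [Finite K] (k : ℕ) (hk : k ≤ Nat.card K + 1) : Lab k K (K × K) := by
  classical
  have := Fintype.ofFinite K
  obtain ⟨c, hc⟩ := exists_c K
  have hc0 : c ≠ 0 := by
    intro h
    apply hc 0
    rw [h]
    ring
  have hc2 : 1 + 1 + c ≠ 0 := by
    intro h
    apply hc 1
    linear_combination h
  obtain ⟨ι⟩ : Nonempty (Fin k ↪ Option K) := by
    apply Function.Embedding.nonempty_of_card_le
    rw [Fintype.card_fin, Fintype.card_option, ← Nat.card_eq_fintype_card]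
    exact hk
  refine ⟨sq c, fun i => lab (ι i), ?_, ?_, ?_, ?_, ?_, ?_⟩
  · intro x
    apply Finite.injective_iff_bijective.1
    rintro ⟨a, b⟩ ⟨a', b'⟩ h
    have e1 : x.1 + c * x.2 - c * b = x.1 + c * x.2 - c * b' := congrArg Prod.fst h
    have e2 : x.2 - x.1 + x.2 + a - b = x.2 - x.1 + x.2 + a' - b' := congrArg Prod.snd h
    have e3 : b = b' := by
      apply mul_left_cancel₀ hc0
      linear_combination -e1
    have e4 : a = a' := by linear_combination e2 + e3
    rw [e3, e4]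
  · intro y
    apply Finite.injective_iff_bijective.1
    rintro ⟨a, b⟩ ⟨a', b'⟩ h
    have e1 : a + c * b - c * y.2 = a' + c * b' - c * y.2 := congrArg Prod.fst h
    have e2 : b - a + b + y.1 - y.2 = b' - a' + b' + y.1 - y.2 := congrArg Prod.snd h
    have e3 : b = b' := by
      apply mul_left_cancel₀ hc2
      linear_combination e1 + e2
    have e4 : a = a' := by linear_combination e1 - c * e3
    rw [e3, e4]
  · rintro i a b ⟨s, t⟩
    show ∃ x y, lab (ι i) x = a ∧ lab (ι i) y = b ∧ sq c x y = (s, t)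
    rcases ι i with _ | σ
    · obtain ⟨u, v, h1, h2⟩ := lin2 c (-c) 2 (-1) (s - a) (t + a - b)
        (by intro h; apply hc0; linear_combination h)
      refine ⟨(a, u), (b, v), rfl, rfl, Prod.ext ?_ ?_⟩
      · show a + c * u - c * v = s
        linear_combination h1
      · show u - a + u + b - v = t
        linear_combination h2
    · obtain ⟨u, v, h1, h2⟩ := lin2 (1 + c * σ) (-(c * σ)) (2 * σ - 1) (1 - σ)
        (s - c * a + c * b) (t - 2 * a + b)
        (by intro h; apply D_ne hc σ; linear_combination h)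
      refine ⟨(u, a + σ * u), (v, b + σ * v), ?_, ?_, Prod.ext ?_ ?_⟩
      · show a + σ * u - σ * u = a
        ring
      · show b + σ * v - σ * v = b
        ring
      · show u + c * (a + σ * u) - c * (b + σ * v) = s
        linear_combination h1
      · show a + σ * u - u + (a + σ * u) + v - (b + σ * v) = t
        linear_combination h2
  · rintro i a b ⟨s, t⟩
    show ∃ x, lab (ι i) x = a ∧ lab (ι i) (sq c x (s, t)) = b
    rcases ι i with _ | σ
    · obtain ⟨u, h1⟩ := lin1 c (b - a + c * t) hc0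
      refine ⟨(a, u), rfl, ?_⟩
      show a + c * u - c * t = b
      linear_combination h1
    · obtain ⟨u, h1⟩ := lin1 (c * σ ^ 2 - σ + 1) (2 * a + s - t - σ * (c * a - c * t) - b)
        (D_ne hc σ)
      refine ⟨(u, a + σ * u), ?_, ?_⟩
      · show a + σ * u - σ * u = a
        ring
      · show a + σ * u - u + (a + σ * u) + s - t -
          σ * (u + c * (a + σ * u) - c * t) = b
        linear_combination -h1
  · rintro i a b ⟨s, t⟩
    show ∃ y, lab (ι i) y = a ∧ lab (ι i) (sq c (s, t) y) = b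
    rcases ι i with _ | σ
    · obtain ⟨u, h1⟩ := lin1 c (s + c * t - b) hc0
      refine ⟨(a, u), rfl, ?_⟩
      show s + c * t - c * u = b
      linear_combination -h1
    · obtain ⟨u, h1⟩ := lin1 (c * σ ^ 2 - σ + 1)
        (b - (t - s + t - a) + σ * (s + c * t - c * a)) (D_ne hc σ)
      refine ⟨(u, a + σ * u), ?_, ?_⟩
      · show a + σ * u - σ * u = a
        ring
      · show t - s + t + u - (a + σ * u) - σ * (s + c * t - c * (a + σ * u)) = b
        linear_combination h1
  · intro i j hij a b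
    have hij' : ι i ≠ ι j := fun h => hij (ι.injective h)
    show ∃! x, lab (ι i) x = a ∧ lab (ι j) x = b
    rcases h1 : ι i with _ | σ <;> rcases h2 : ι j with _ | τ
    · exact absurd (h1.trans h2.symm) hij'
    · refine ⟨(a, b + τ * a), ⟨rfl, ?_⟩, ?_⟩
      · show b + τ * a - τ * a = b
        ring
      · rintro ⟨x, y⟩ ⟨e1, e2⟩
        have e1' : x = a := e1
        have e2' : y - τ * x = b := e2
        refine Prod.ext e1' ?_
        show y = b + τ * a
        linear_combination e2' + τ * e1'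
    · refine ⟨(b, a + σ * b), ⟨?_, rfl⟩, ?_⟩
      · show a + σ * b - σ * b = a
        ring
      · rintro ⟨x, y⟩ ⟨e1, e2⟩
        have e1' : y - σ * x = a := e1
        have e2' : x = b := e2
        refine Prod.ext e2' ?_
        show y = a + σ * b
        linear_combination e1' + σ * e2'
    · have hne : τ - σ ≠ 0 := by
        intro h
        apply hij'
        rw [h1, h2, sub_eq_zero.1 h]
      obtain ⟨u, hu⟩ := lin1 (τ - σ) (a - b) hne
      refine ⟨(u, a + σ * u), ⟨?_, ?_⟩, ?_⟩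
      · show a + σ * u - σ * u = a
        ring
      · show a + σ * u - τ * u = b
        linear_combination -hu
      · rintro ⟨x, y⟩ ⟨e1, e2⟩
        have e1' : y - σ * x = a := e1
        have e2' : y - τ * x = b := e2
        have e3 : x = u := by
          apply mul_left_cancel₀ hne
          linear_combination e1' - e2' - hu
        refine Prod.ext e3 ?_
        show y = a + σ * u
        linear_combination e1' + σ * e3

end field

/-- The product bound, labelled form. -/
theorem lab_of_factorization (k m : ℕ) (hm : m ≠ 0)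
    (h : ∀ p, p.Prime → p ∣ m → k ≤ p ^ m.factorization p + 1) :
    Lab k (Fin m) (Fin (m ^ 2)) := by
  induction m using Nat.recOnPosPrimePosCoprime with
  | zero => exact absurd rfl hm
  | one => exact (Lab.unit k).equiv (Fintype.equivFinOfCardEq rfl) (Fintype.equivFinOfCardEq rfl)
  | prime_pow p n hp hn =>
    have h1 := h p hp (dvd_pow_self p (Nat.pos_iff_ne_zero.1 hn))
    rw [hp.factorization_pow, Finsupp.single_eq_same] at h1
    have : Fact p.Prime := ⟨hp⟩
    have hcard : Nat.card (GaloisField p n) = p ^ n :=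
      GaloisField.card p n (Nat.pos_iff_ne_zero.1 hn)
    have h2 : Lab k (GaloisField p n) (GaloisField p n × GaloisField p n) := by
      apply field_lab
      rw [hcard]
      exact h1
    refine h2.equiv (Finite.equivFinOfCardEq hcard) (Finite.equivFinOfCardEq ?_)
    rw [Nat.card_prod, hcard, pow_two]
  | coprime a b ha hb hab iha ihb =>
    have hfa : ∀ p, p.Prime → p ∣ a → k ≤ p ^ a.factorization p + 1 := by
      intro p hp hpa
      have h1 := h p hp (hpa.mul_right b)
      rwa [Nat.factorization_eq_of_coprime_left hab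
        (Nat.mem_primeFactorsList (by omega) |>.2 ⟨hp, hpa⟩)] at h1
    have hfb : ∀ p, p.Prime → p ∣ b → k ≤ p ^ b.factorization p + 1 := by
      intro p hp hpb
      have h1 := h p hp (hpb.mul_left a)
      rwa [Nat.factorization_eq_of_coprime_right hab
        (Nat.mem_primeFactorsList (by omega) |>.2 ⟨hp, hpb⟩)] at h1
    have h1 := (iha (by omega) hfa).prod (ihb (by omega) hfb)
    refine h1.equiv finProdFinEquiv (finProdFinEquiv.trans (finCongr ?_))
    ring

end Pool.Agent.H928.DS
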