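import Pool.Agent.H928.DS.Defs
import Pool.Agent.H928.DS.Lab
import Pool.Graph.R_seed8.TH302.Tarry.Main

/-!
# Division sudokus: from labels to partitions, and the upper bound for rank six
-/

set_option autoImplicit false

namespace Pool.Agent.H928.DS

theorem mem_sizes {k m : ℕ} (hm : 2 ≤ m) (hk : 1 ≤ k) (h : Lab k (Fin m) (Fin (m ^ 2))) :
    k ∈ Sizes m := by
  classical
  obtain ⟨L, f, h1, h2, h3, h4, h5, h6⟩ := h
  have hpos : 0 < m ^ 2 := by positivity
  let Bl : Fin k → Fin m → Set (Fin (m ^ 2)) := fun i a => {x | f i x = a}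
  have hne : ∀ i a, (Bl i a).Nonempty := by
    intro i a
    obtain ⟨x, hx, -⟩ := h4 i a a ⟨0, hpos⟩
    exact ⟨x, hx⟩
  have hge : ∀ i a, m ≤ (Bl i a).ncard := by
    intro i a
    have e1 : (fun p : Fin (m ^ 2) × Fin (m ^ 2) => L p.1 p.2) '' (Bl i a ×ˢ Bl i a) =
        Set.univ := by
      apply Set.eq_univ_of_forall
      intro s
      obtain ⟨x, y, e1, e2, e3⟩ := h3 i a a s
      exact ⟨(x, y), ⟨e1, e2⟩, e3⟩
    have e2 : (Set.univ : Set (Fin (m ^ 2))).ncard ≤ (Bl i a ×ˢ Bl i a).ncard := by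
      rw [← e1]
      exact Set.ncard_image_le (Set.toFinite _)
    rw [Set.ncard_univ, Nat.card_eq_fintype_card, Fintype.card_fin, Set.ncard_prod] at e2
    exact Nat.mul_self_le_mul_self_iff.1 ((pow_two m).symm.le.trans e2)
  have hfil : ∀ i a, (Bl i a).ncard = (Finset.univ.filter fun x => f i x = a).card := by
    intro i a
    rw [← Set.ncard_coe_finset]
    congr 1
    ext x
    simp [Bl]
  have hsum : ∀ i, ∑ a, (Bl i a).ncard = m ^ 2 := by
    intro i
    have e1 := Finset.card_eq_sum_card_fiberwise (f := f i) (s := Finset.univ)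
      (t := Finset.univ) (fun x _ => Finset.mem_coe.2 (Finset.mem_univ _))
    rw [Finset.card_univ, Fintype.card_fin] at e1
    exact (Finset.sum_congr rfl fun a _ => hfil i a).trans e1.symm
  have hcard : ∀ i a, (Bl i a).ncard = m := by
    intro i a
    have e1 : ∑ _a : Fin m, m = ∑ a, (Bl i a).ncard := by
      rw [hsum, Finset.sum_const, Finset.card_univ, Fintype.card_fin, smul_eq_mul, pow_two]
    exact ((Finset.sum_eq_sum_iff_of_le (fun a _ => hge i a)).1 e1 a (Finset.mem_univ a)).symm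
  let P : Fin k → Set (Set (Fin (m ^ 2))) := fun i => Set.range (Bl i)
  have hBinj : ∀ i, Function.Injective (Bl i) := by
    intro i a b hab
    obtain ⟨x, hx⟩ := hne i a
    have hx' : x ∈ Bl i b := by rw [← hab]; exact hx
    exact hx.symm.trans hx'
  have hsud : ∀ i, SudokuPartition m (P i) := by
    intro i
    refine ⟨⟨?_, ?_⟩, ?_, ?_⟩
    · rintro ⟨a, ha⟩
      exact (hne i a).ne_empty ha
    · intro x
      refine ⟨Bl i (f i x), ⟨⟨_, rfl⟩, rfl⟩, ?_⟩
      rintro _ ⟨⟨a, rfl⟩, hx⟩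
      have hx' : f i x = a := hx
      rw [hx']
    · rw [Set.ncard_range_of_injective (hBinj i), Nat.card_eq_fintype_card, Fintype.card_fin]
    · rintro _ ⟨a, rfl⟩
      exact hcard i a
  have hone : ∀ i j, i ≠ j → ∀ a b, (Bl i a ∩ Bl j b).ncard = 1 := by
    intro i j hij a b
    obtain ⟨x, hx, hu⟩ := h6 i j hij a b
    refine Set.ncard_eq_one.2 ⟨x, ?_⟩
    ext y
    constructor
    · intro hy
      exact hu y hy
    · rintro rfl
      exact hx
  have hPinj : Function.Injective P := by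
    intro i j hij
    by_contra hne'
    have e1 : Bl i ⟨0, by omega⟩ ∈ P j := by
      rw [← hij]
      exact ⟨_, rfl⟩
    obtain ⟨b, hb⟩ := e1
    have e2 := hone i j hne' ⟨0, by omega⟩ b
    rw [hb, Set.inter_self, hcard] at e2
    omega
  refine ⟨L, ⟨h1, h2⟩, Set.range P, ⟨P ⟨0, hk⟩, ⟨_, rfl⟩⟩, ?_, ?_, ?_⟩
  · rintro _ ⟨i, rfl⟩
    refine ⟨hsud i, ?_⟩
    rintro _ ⟨a, rfl⟩ _ ⟨b, rfl⟩
    refine ⟨?_, ?_, ?_⟩
    · intro s
      obtain ⟨x, y, e1, e2, e3⟩ := h3 i a b s
      exact ⟨x, e1, y, e2, e3⟩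
    · intro y
      obtain ⟨x, e1, e2⟩ := h4 i a b y
      exact ⟨x, e1, e2⟩
    · intro x
      obtain ⟨y, e1, e2⟩ := h5 i a b x
      exact ⟨y, e1, e2⟩
  · rintro _ ⟨i, rfl⟩ _ ⟨j, rfl⟩ hPQ _ ⟨a, rfl⟩ _ ⟨b, rfl⟩
    exact hone i j (fun e => hPQ (by rw [e])) a b
  · rw [Set.ncard_range_of_injective hPinj, Nat.card_eq_fintype_card, Fintype.card_fin]

theorem exists_label {m : ℕ} {X : Type} {P : Set (Set X)} (hm : 0 < m)
    (h : SudokuPartition m P) : ∃ g : X → Fin m, ∀ a, {x | g x = a} ∈ P := by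
  obtain ⟨⟨-, h1⟩, h2, -⟩ := h
  have hcard : Nat.card P = m := h2
  have hfin : Finite P := Nat.finite_of_card_ne_zero (by omega)
  let e : P ≃ Fin m := Finite.equivFinOfCardEq hcard
  choose B hB hu using h1
  refine ⟨fun x => e ⟨B x, (hB x).1⟩, fun a => ?_⟩
  have e1 : {x | e ⟨B x, (hB x).1⟩ = a} = (e.symm a : Set X) := by
    ext x
    show e ⟨B x, (hB x).1⟩ = a ↔ _
    rw [← Equiv.eq_symm_apply]
    constructor
    · intro h
      rw [← h]
      exact (hB x).2
    · intro h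
      exact Subtype.ext (hu x _ ⟨(e.symm a).2, h⟩).symm
  rw [e1]
  exact (e.symm a).2

theorem no_four {X : Type} (g : Fin 4 → X → Fin 6)
    (h : ∀ i j, i ≠ j → ∀ a b, ∃! x, g i x = a ∧ g j x = b) : False := by
  have uniq : ∀ i j, i ≠ j → ∀ x y, g i x = g i y → g j x = g j y → x = y := by
    intro i j hij x y h1 h2
    exact (h i j hij (g i y) (g j y)).unique ⟨h1, h2⟩ ⟨rfl, rfl⟩
  choose p hp _ using h 0 1 (by decide)
  refine Pool.Agent.TH302.Tarry.tarry (fun a b => g 2 (p a b)) (fun a b => g 3 (p a b))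
    ?_ ?_ ?_ ?_ ?_
  · intro a b b' hb
    have := uniq 0 2 (by decide) (p a b) (p a b') ((hp a b).1.trans (hp a b').1.symm) hb
    rw [← (hp a b).2, ← (hp a b').2, this]
  · intro b a a' ha
    have := uniq 1 2 (by decide) (p a b) (p a' b) ((hp a b).2.trans (hp a' b).2.symm) ha
    rw [← (hp a b).1, ← (hp a' b).1, this]
  · intro a b b' hb
    have := uniq 0 3 (by decide) (p a b) (p a b') ((hp a b).1.trans (hp a b').1.symm) hb
    rw [← (hp a b).2, ← (hp a b').2, this]
  · intro b a a' ha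
    have := uniq 1 3 (by decide) (p a b) (p a' b) ((hp a b).2.trans (hp a' b).2.symm) ha
    rw [← (hp a b).1, ← (hp a' b).1, this]
  · intro a b a' b' h1 h2
    have := uniq 2 3 (by decide) (p a b) (p a' b') h1 h2
    refine ⟨?_, ?_⟩
    · rw [← (hp a b).1, ← (hp a' b').1, this]
    · rw [← (hp a b).2, ← (hp a' b').2, this]

theorem sizes_six {k : ℕ} (h : k ∈ Sizes 6) : k ≤ 3 := by
  obtain ⟨L, -, C, -, hC, hA, hk⟩ := h
  by_contra hlt
  have hcard : Nat.card C = k := hk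
  have hfin : Finite C := Nat.finite_of_card_ne_zero (by omega)
  let e : C ≃ Fin k := Finite.equivFinOfCardEq hcard
  let ι : Fin 4 → C := fun i => e.symm (Fin.castLE (by omega) i)
  have hι : Function.Injective ι := e.symm.injective.comp (Fin.castLE_injective _)
  choose g hg using fun i : Fin 4 => exists_label (m := 6) (by norm_num) (hC (ι i).1 (ι i).2).1
  apply no_four g
  intro i j hij a b
  have hne : (ι i).1 ≠ (ι j).1 := fun he => hij (hι (Subtype.ext he))
  have h1 := hA _ (ι i).2 _ (ι j).2 hne _ (hg i a) _ (hg j b)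
  obtain ⟨x, hx⟩ := Set.ncard_eq_one.1 h1
  have hx' : x ∈ {x | g i x = a} ∩ {x | g j x = b} := by rw [hx]; exact rfl
  refine ⟨x, hx', ?_⟩
  intro y hy
  have hy' : y ∈ {x | g i x = a} ∩ {x | g j x = b} := hy
  rw [hx] at hy'
  exact hy'

theorem mols_six : IsGreatest (MolsSizes 6) 1 := by
  refine ⟨⟨fun _ x y => x + y, fun _ => ⟨fun x => (Equiv.addLeft x).bijective,
    fun y => (Equiv.addRight y).bijective⟩, fun i j hij => absurd (Subsingleton.elim i j) hij⟩, ?_⟩
  rintro k ⟨F, hF, hO⟩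
  by_contra hlt
  have hne : (⟨0, by omega⟩ : Fin k) ≠ ⟨1, by omega⟩ := by
    intro h
    simp at h
  refine Pool.Agent.TH302.Tarry.tarry (F ⟨0, by omega⟩) (F ⟨1, by omega⟩)
    (fun i => ((hF _).1 i).injective) (fun i => ((hF _).2 i).injective)
    (fun i => ((hF _).1 i).injective) (fun i => ((hF _).2 i).injective) ?_
  intro i c i' c' h1 h2
  have h3 := hO _ _ hne (a₁ := (i, c)) (a₂ := (i', c')) (Prod.ext h1 h2)
  exact ⟨congrArg Prod.fst h3, congrArg Prod.snd h3⟩

end Pool.Agent.H928.DS
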