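import Mathlib

/-!
# Division sudokus and affine collections of sudoku partitions: definitions
-/

set_option autoImplicit false

namespace Pool.Agent.H928.DS

/-- `P` is a sudoku partition of `X` (a set with `m ^ 2` elements): a partition of `X` into `m` blocks, each
with `m` elements. -/
def SudokuPartition (m : ℕ) {X : Type} (P : Set (Set X)) : Prop :=
  Setoid.IsPartition P ∧ P.ncard = m ∧ ∀ A ∈ P, A.ncard = m

/-- `L` is a latin square with rows, columns and symbols indexed by `X`. -/
def Latin {X : Type} (L : X → X → X) : Prop :=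
  (∀ x, Function.Bijective (L x)) ∧ ∀ y, Function.Bijective fun x => L x y

/-- `L` is a division sudoku of rank `m` with respect to the sudoku partition `P`: for all blocks `A`, `B` the
cells `(x, y)` with `x ∈ A`, `y ∈ B` contain every symbol, the cells with `x ∈ A`, `L x y ∈ B` meet every column
and the cells with `y ∈ A`, `L x y ∈ B` meet every row. -/
def DivisionSudoku (m : ℕ) {X : Type} (L : X → X → X) (P : Set (Set X)) : Prop :=
  SudokuPartition m P ∧ ∀ A ∈ P, ∀ B ∈ P,
    (∀ s, ∃ x ∈ A, ∃ y ∈ B, L x y = s) ∧ (∀ y, ∃ x ∈ A, L x y ∈ B) ∧ ∀ x, ∃ y ∈ A, L x y ∈ B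

/-- The collection `C` is affine: blocks of different members share exactly one element. -/
def Affine {X : Type} (C : Set (Set (Set X))) : Prop :=
  ∀ P ∈ C, ∀ Q ∈ C, P ≠ Q → ∀ A ∈ P, ∀ B ∈ Q, (A ∩ B).ncard = 1

/-- The sizes of the nonempty affine collections of sudoku partitions with respect to each of which one and the
same latin square on a set with `m ^ 2` elements is a division sudoku of rank `m`. The greatest element of this
set is the number `τ(m)`. -/
def Sizes (m : ℕ) : Set ℕ :=
  {k | ∃ L : Fin (m ^ 2) → Fin (m ^ 2) → Fin (m ^ 2), Latin L ∧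
    ∃ C : Set (Set (Set (Fin (m ^ 2)))), C.Nonempty ∧ (∀ P ∈ C, DivisionSudoku m L P) ∧
      Affine C ∧ C.ncard = k}

/-- `L` and `M` are orthogonal. -/
def Orth {m : ℕ} (L M : Fin m → Fin m → Fin m) : Prop :=
  Function.Injective fun p : Fin m × Fin m => (L p.1 p.2, M p.1 p.2)

/-- The numbers `k` such that there are `k` mutually orthogonal latin squares of order `m`. The greatest
element of this set is the number `N(m)`. -/
def MolsSizes (m : ℕ) : Set ℕ :=
  {k | ∃ F : Fin k → Fin m → Fin m → Fin m, (∀ i, Latin (F i)) ∧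
    ∀ i j, i ≠ j → Orth (F i) (F j)}

end Pool.Agent.H928.DS
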